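import Mathlib

/-!
The `j`-primitive exponents of nonnegative tensors, following the problem file MP_51d02f_co.
-/

namespace Pool.Agent.H84.TP

variable {m n : ℕ}

/-- Tensors of order `m` and dimension `n`: arrays with `m` indices in `Fin n`. -/
abbrev Tensor (m n : ℕ) := (Fin m → Fin n) → ℝ

/-- All entries are nonnegative. -/
def Nonneg (A : Tensor m n) : Prop := ∀ i, 0 ≤ A i

/-- The set of all `u` for which there is a positive entry with first index `u` and all the other
indices in `S`. -/
def next (A : Tensor m n) (S : Set (Fin n)) : Set (Fin n) :=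
  {u | ∃ i : Fin m → Fin n, 0 < A i ∧ ∀ t : Fin m, if t.val = 0 then i t = u else i t ∈ S}

/-- The sets `S_k(A, j)`; for `k = 0` this is `{j}`, so that `S_1(A, j)` is the set of all `u` such
that the entry with indices `u, j, ..., j` is positive. -/
def S (A : Tensor m n) (j : Fin n) : ℕ → Set (Fin n)
  | 0 => {j}
  | k + 1 => next A (S A j k)

/-- `A` is `j`-primitive. -/
def JPrimitive (A : Tensor m n) (j : Fin n) : Prop := ∃ k, 1 ≤ k ∧ S A j k = Set.univ

/-- The least `k ≥ 1` with `S_k(A, j)` the whole set. -/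
noncomputable def gamma (A : Tensor m n) (j : Fin n) : ℕ :=
  sInf {k | 1 ≤ k ∧ S A j k = Set.univ}

/-- `A` is primitive: it is `j`-primitive for all `j`. -/
def Primitive (A : Tensor m n) : Prop := ∀ j, JPrimitive A j

/-- `r m n`: the maximum of `gamma A j` over all nonnegative tensors `A` of order `m` and dimension
`n` which are not primitive, and all `j` such that `A` is `j`-primitive. -/
noncomputable def r (m n : ℕ) : ℕ :=
  sSup {k | ∃ A : Tensor m n, Nonneg A ∧ ¬ Primitive A ∧ ∃ j, JPrimitive A j ∧ gamma A j = k}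

lemma S_add (A : Tensor m n) (j : Fin n) {a b : ℕ} (h : S A j a = S A j b) (t : ℕ) :
    S A j (a + t) = S A j (b + t) := by
  induction t with
  | zero => exact h
  | succ t ih =>
    show next A (S A j (a + t)) = next A (S A j (b + t))
    rw [ih]

lemma gamma_spec {A : Tensor m n} {j : Fin n} (h : JPrimitive A j) :
    1 ≤ gamma A j ∧ S A j (gamma A j) = Set.univ := by
  have : gamma A j ∈ {k | 1 ≤ k ∧ S A j k = Set.univ} := Nat.sInf_mem h
  exact this

lemma gamma_le {A : Tensor m n} {j : Fin n} (h : JPrimitive A j) : gamma A j ≤ 2 ^ n := by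
  classical
  obtain ⟨h1, h2⟩ := gamma_spec h
  have hinj : Set.InjOn (S A j) (Set.Icc 1 (gamma A j)) := by
    have key : ∀ a b, 1 ≤ a → a < b → b ≤ gamma A j → S A j a ≠ S A j b := by
      intro a b ha hab hb he
      have h3 := S_add A j he (gamma A j - b)
      rw [Nat.add_sub_cancel' hb, h2] at h3
      have h4 : gamma A j ≤ a + (gamma A j - b) := Nat.sInf_le ⟨by omega, h3⟩
      omega
    intro a ha b hb he
    rcases lt_trichotomy a b with h | h | h
    · exact (key a b ha.1 h hb.2 he).elim
    · exact h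
    · exact (key b a hb.1 h ha.2 he.symm).elim
  have h5 : ((Set.Icc 1 (gamma A j)).ncard) ≤ Nat.card (Set (Fin n)) := by
    rw [← Set.ncard_image_of_injOn hinj, ← Set.ncard_univ]
    exact Set.ncard_le_ncard (Set.subset_univ _) (Set.finite_univ)
  rw [Nat.card_eq_fintype_card, Fintype.card_set, Fintype.card_fin] at h5
  have h6 : (Set.Icc 1 (gamma A j)).ncard = gamma A j := by
    rw [← Finset.coe_Icc, Set.ncard_coe_finset, Nat.card_Icc]
    omega
  omega

lemma bddAbove (m n : ℕ) : BddAbove {k | ∃ A : Tensor m n, Nonneg A ∧ ¬ Primitive A ∧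
    ∃ j, JPrimitive A j ∧ gamma A j = k} := by
  refine ⟨2 ^ n, ?_⟩
  rintro k ⟨A, -, -, j, hj, rfl⟩
  exact gamma_le hj

end Pool.Agent.H84.TP
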