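import Pool.Agent.H84.TP.Net

/-!
The tensors of the counting networks and the lower bounds for `r m n`.
-/

namespace Pool.Agent.H84.TP

variable {N G g e k m n : ℕ}

/-- The tensor of the network: an entry is `1` if its first index is activated by the set of the
other indices, otherwise it is `0`. -/
noncomputable def tens (hm : 0 < m) (hG : 0 < G) (E : Fin G → Finset (Fin g))
    (eqv : Node N g e ≃ Fin n) : Tensor m n := fun i =>
  open Classical in
  if Act hG E (eqv.symm (i ⟨0, hm⟩)) {v | ∃ t : Fin m, t.val ≠ 0 ∧ i t = eqv v} then 1 else 0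

/-- A small nonempty set is the set of values of a family indexed by the indices other than
the first one. -/
lemma exists_family {V : Type*} (Y : Finset V) (hY : Y.Nonempty) (hc : Y.card + 1 ≤ m) :
    ∃ h : Fin m → V, (∀ t, h t ∈ Y) ∧ ∀ y ∈ Y, ∃ t : Fin m, t.val ≠ 0 ∧ h t = y := by
  obtain ⟨y0, hy0⟩ := hY
  refine ⟨fun t => if hlt : t.val - 1 < Y.card then (Y.equivFin.symm ⟨t.val - 1, hlt⟩ : Y).val
    else y0, ?_, ?_⟩
  · intro t
    dsimp only
    split_ifs
    · exact (Y.equivFin.symm _).2
    · exact hy0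
  · intro y hy
    have hlt := (Y.equivFin ⟨y, hy⟩).isLt
    refine ⟨⟨(Y.equivFin ⟨y, hy⟩).val + 1, by omega⟩, by simp, ?_⟩
    simp only [Nat.add_sub_cancel]
    rw [dif_pos hlt]
    simp

lemma next_tens (hm : 0 < m) (hG : 0 < G) (E : Fin G → Finset (Fin g))
    (eqv : Node N g e ≃ Fin n) (hk : 1 ≤ k) (hkm : k + 2 ≤ m) (hE : ∀ d, (E d).card = k)
    (W : Set (Node N g e)) :
    next (tens hm hG E eqv) (eqv '' W) = eqv '' {u | Act hG E u W} := by
  classical
  ext u'
  obtain ⟨u, rfl⟩ := eqv.surjective u'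
  constructor
  · rintro ⟨i, hpos, hi⟩
    rw [tens] at hpos
    split_ifs at hpos with hact
    · have h0 : i ⟨0, hm⟩ = eqv u := by
        have := hi ⟨0, hm⟩
        simpa using this
      rw [h0, Equiv.symm_apply_apply] at hact
      refine ⟨u, act_mono ?_ hact, rfl⟩
      rintro v ⟨t, ht, hv⟩
      have h1 := hi t
      rw [if_neg ht, hv] at h1
      obtain ⟨w, hw, hwv⟩ := h1
      rw [← eqv.injective hwv]
      exact hw
    · exact absurd hpos (lt_irrefl _)
  · rintro ⟨u1, hu1, he⟩
    have hu : Act hG E u W := by rw [← eqv.injective he]; exact hu1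
    obtain ⟨Y, hY1, hY2, hY3, hY4⟩ := act_finite hk hE hu
    obtain ⟨h, hh1, hh2⟩ := exists_family (m := m) Y hY1 (by omega)
    refine ⟨fun t => if t.val = 0 then eqv u else eqv (h t), ?_, ?_⟩
    · rw [tens]
      have : Act hG E (eqv.symm (if (⟨0, hm⟩ : Fin m).val = 0 then eqv u else
          eqv (h ⟨0, hm⟩))) {v | ∃ t : Fin m, t.val ≠ 0 ∧
          (if t.val = 0 then eqv u else eqv (h t)) = eqv v} := by
        rw [if_pos rfl, Equiv.symm_apply_apply]
        refine act_mono ?_ hY4
        intro y hy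
        obtain ⟨t, ht, hty⟩ := hh2 y hy
        exact ⟨t, ht, by rw [if_neg ht, hty]⟩
      rw [if_pos this]
      exact one_pos
    · intro t
      by_cases ht : t.val = 0
      · simp only [ht, if_true]
      · simp only [ht, if_false]
        exact ⟨h t, hY3 (hh1 t), rfl⟩

/-- The general lower bound. -/
theorem lower (hk : 1 ≤ k) (hkg : k ≤ g) (hkm : k + 2 ≤ m) (hN : 1 ≤ N)
    (hn : (g + 2) * N + 2 ≤ n) : (g.choose k) ^ N + N + 1 ≤ r m n := by
  classical
  have hG : 0 < g.choose k := Nat.choose_pos hkg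
  set G := g.choose k with hGdef
  have hm : 0 < m := by omega
  -- the states
  have hcard : Fintype.card (Finset.powersetCard k (Finset.univ : Finset (Fin g))) = G := by
    rw [Fintype.card_coe, Finset.card_powersetCard, Finset.card_univ, Fintype.card_fin]
  let φ := Fintype.equivFinOfCardEq hcard
  let E : Fin G → Finset (Fin g) := fun d => (φ.symm d).val
  have hE : ∀ d, (E d).card = k := fun d => (Finset.mem_powersetCard.1 (φ.symm d).2).2
  have hinj : Function.Injective E := by
    intro a b h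
    exact φ.symm.injective (Subtype.ext h)
  -- the nodes
  obtain ⟨e, he⟩ : ∃ e, (g + 2) * N + 2 + e = n := ⟨n - ((g + 2) * N + 2), by omega⟩
  let eqv : Node N g e ≃ Fin n := Fintype.equivFinOfCardEq (by rw [card_node, he])
  set A := tens hm hG E eqv with hA
  have hnext := next_tens hm hG E eqv hk hkm hE
  -- the time of the last pulse
  have hpow : 0 < G ^ N := pow_pos hG N
  obtain ⟨s0, hs0⟩ : ∃ s0, s0 + 1 = G ^ N + N := ⟨G ^ N + N - 1, by omega⟩
  have hP : P G N s0 := ⟨by omega, by
    have : s0 + 1 - N = G ^ N := by omega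
    rw [this]⟩
  have hnP : ∀ s, s < s0 → ¬ P G N s := by
    rintro s hs ⟨h1, h2⟩
    have := Nat.le_of_dvd (by omega) h2
    omega
  have hS : ∀ s, s ≤ s0 → S A (eqv .start) (s + 1) = eqv '' {v | T hG E s v} := by
    intro s
    induction s with
    | zero =>
      intro _
      show next A {eqv .start} = _
      have : ({eqv .start} : Set (Fin n)) = eqv '' {Node.start} := by simp
      rw [this, hnext]
      congr 1
      ext u
      exact step_start u
    | succ s ih =>
      intro hs
      show next A (S A (eqv .start) (s + 1)) = _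
      rw [ih (by omega), hnext]
      congr 1
      ext u
      exact step hE hinj (hnP s (by omega)) u
  have hlast : S A (eqv .start) (s0 + 2) = Set.univ := by
    show next A (S A (eqv .start) (s0 + 1)) = _
    rw [hS s0 le_rfl, hnext]
    have : {u | Act hG E u {v | T hG E s0 v}} = (Set.univ : Set (Node N g e)) :=
      Set.eq_univ_of_forall fun u => step_last hP u
    rw [this, Set.image_univ, eqv.range_eq_univ]
  have hjp : JPrimitive A (eqv .start) := ⟨s0 + 2, by omega, hlast⟩
  have hgamma : gamma A (eqv .start) = s0 + 2 := by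
    apply le_antisymm
    · exact Nat.sInf_le ⟨by omega, hlast⟩
    · obtain ⟨g1, g2⟩ := gamma_spec hjp
      by_contra hlt
      obtain ⟨s, hs⟩ : ∃ s, gamma A (eqv .start) = s + 1 := ⟨gamma A (eqv .start) - 1, by omega⟩
      rw [hs, hS s (by omega)] at g2
      have : eqv .start ∈ eqv '' {v | T hG E s v} := by rw [g2]; exact Set.mem_univ _
      obtain ⟨v, hv, hv2⟩ := this
      rw [eqv.injective hv2] at hv
      exact hv
  have hnp : ¬ Primitive A := by
    intro hprim
    obtain ⟨K, hK1, hK2⟩ := hprim (eqv (.q ⟨N - 1, by omega⟩))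
    have hempty : ∀ t, S A (eqv (.q ⟨N - 1, by omega⟩)) (t + 1) = ∅ := by
      intro t
      induction t with
      | zero =>
        show next A {eqv (.q ⟨N - 1, by omega⟩)} = _
        have : ({eqv (.q ⟨N - 1, by omega⟩)} : Set (Fin n)) =
            eqv '' {Node.q ⟨N - 1, by omega⟩} := by simp
        rw [this, hnext, Set.image_eq_empty]
        exact Set.eq_empty_of_forall_notMem fun u => dead hN u
      | succ t ih =>
        show next A (S A _ (t + 1)) = _
        rw [ih, ← Set.image_empty eqv, hnext, Set.image_empty, Set.image_eq_empty]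
        exact Set.eq_empty_of_forall_notMem fun u => dead_empty u
    obtain ⟨t, rfl⟩ : ∃ t, K = t + 1 := ⟨K - 1, by omega⟩
    rw [hempty t] at hK2
    have : eqv .start ∈ (∅ : Set (Fin n)) := by rw [hK2]; exact Set.mem_univ _
    exact this
  have hmem : s0 + 2 ∈ {k | ∃ A : Tensor m n, Nonneg A ∧ ¬ Primitive A ∧
      ∃ j, JPrimitive A j ∧ gamma A j = k} := by
    refine ⟨A, ?_, hnp, eqv .start, hjp, hgamma⟩
    intro i
    rw [hA, tens]
    split_ifs
    · exact zero_le_one
    · exact le_rfl
  have := le_csSup (bddAbove m n) hmem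
  have h2 : r m n = sSup {k | ∃ A : Tensor m n, Nonneg A ∧ ¬ Primitive A ∧
      ∃ j, JPrimitive A j ∧ gamma A j = k} := rfl
  omega

/-- The upper bound. -/
theorem upper (m n : ℕ) : r m n ≤ 2 ^ n := by
  rcases Set.eq_empty_or_nonempty {k | ∃ A : Tensor m n, Nonneg A ∧ ¬ Primitive A ∧
      ∃ j, JPrimitive A j ∧ gamma A j = k} with h | h
  · rw [r, h]
    simp
  · refine csSup_le h ?_
    rintro k ⟨A, -, -, j, hj, rfl⟩
    exact gamma_le hj

/-- For every order at least three. -/
theorem lower_three (hm : 3 ≤ m) (hn : 8 ≤ n) : 4 ^ ((n - 2) / 6) < r m n := by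
  have h1 : 1 ≤ (n - 2) / 6 := by omega
  have h2 : (4 + 2) * ((n - 2) / 6) + 2 ≤ n := by omega
  have := lower (k := 1) (g := 4) (m := m) (n := n) (N := (n - 2) / 6) le_rfl (by norm_num)
    (by omega) h1 h2
  rw [Nat.choose_one_right] at this
  omega

/-- For larger orders. -/
theorem lower_pow (j : ℕ) (hj : 1 ≤ j) (hm : 2 ^ (j - 1) + 2 ≤ m) (hn : 2 ^ j + 4 ≤ n) :
    2 ^ ((2 ^ j - j) * ((n - 2) / (2 ^ j + 2))) < r m n := by
  obtain ⟨i, rfl⟩ : ∃ i, j = i + 1 := ⟨j - 1, by omega⟩
  rw [Nat.add_sub_cancel] at hm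
  have hpos : 0 < 2 ^ i := by positivity
  set k := 2 ^ i with hk
  have h2k : 2 ^ (i + 1) = 2 * k := by rw [pow_succ, hk]; ring
  rw [h2k] at hn ⊢
  have h1 : 1 ≤ (n - 2) / (2 * k + 2) := (Nat.one_le_div_iff (by omega)).2 (by omega)
  have h2 : (2 * k + 2) * ((n - 2) / (2 * k + 2)) + 2 ≤ n := by
    have := Nat.mul_div_le (n - 2) (2 * k + 2)
    omega
  have h3 := lower (k := k) (g := 2 * k) (m := m) (n := n) (N := (n - 2) / (2 * k + 2))
    (by omega) (by omega) hm h1 h2
  have h4 : 2 ^ (2 * k - (i + 1)) ≤ (2 * k).choose k := by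
    have h5 := Nat.four_pow_le_two_mul_self_mul_centralBinom k (by omega)
    rw [Nat.centralBinom_eq_two_mul_choose] at h5
    have h6 : 4 ^ k = 2 ^ (2 * k - (i + 1)) * 2 ^ (i + 1) := by
      rw [← pow_add, Nat.sub_add_cancel, pow_mul]
      · norm_num
      · rw [← h2k]
        exact (Nat.lt_two_pow_self).le
    rw [h6, h2k, mul_comm] at h5
    exact Nat.le_of_mul_le_mul_left h5 (by omega)
  rw [pow_mul]
  have h7 := Nat.pow_le_pow_left h4 ((n - 2) / (2 * k + 2))
  omega

end Pool.Agent.H84.TP
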