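import Pool.Agent.H84.TP.Defs

/-!
A monotone network which counts: a pulse with number `i + 1` is produced by every `G`-th pulse with
number `i`, where the states of every block are `G` sets of the same cardinality.
-/

namespace Pool.Agent.H84.TP

/-- The nodes: `N` blocks with `g` nodes each, the pulses `p` and their complements `q`. -/
inductive Node (N g e : ℕ)
  | start
  | ring (i : Fin N) (r : Fin g)
  | p (i : Fin (N + 1))
  | q (i : Fin N)
  | ex (k : Fin e)
  deriving DecidableEq

def nodeEquiv (N g e : ℕ) :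
    Node N g e ≃ Unit ⊕ (Fin N × Fin g) ⊕ Fin (N + 1) ⊕ Fin N ⊕ Fin e where
  toFun
    | .start => .inl ()
    | .ring i r => .inr (.inl (i, r))
    | .p i => .inr (.inr (.inl i))
    | .q i => .inr (.inr (.inr (.inl i)))
    | .ex k => .inr (.inr (.inr (.inr k)))
  invFun
    | .inl _ => .start
    | .inr (.inl (i, r)) => .ring i r
    | .inr (.inr (.inl i)) => .p i
    | .inr (.inr (.inr (.inl i))) => .q i
    | .inr (.inr (.inr (.inr k))) => .ex k
  left_inv := by rintro (_ | _ | _ | _ | _) <;> rfl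
  right_inv := by rintro (_ | _ | _ | _ | _) <;> rfl

instance (N g e : ℕ) : Fintype (Node N g e) := Fintype.ofEquiv _ (nodeEquiv N g e).symm

lemma card_node (N g e : ℕ) : Fintype.card (Node N g e) = (g + 2) * N + 2 + e := by
  rw [Fintype.card_congr (nodeEquiv N g e)]
  simp only [Fintype.card_sum, Fintype.card_unit, Fintype.card_prod, Fintype.card_fin]
  ring

/-- The pulse with number `i` is present at time `s`. -/
def P (G i s : ℕ) : Prop := i < s + 1 ∧ G ^ i ∣ (s + 1 - i)

/-- The state of the block with number `i` at time `s`. -/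
def D (G i s : ℕ) : ℕ := ((s - i) / G ^ i) % G

lemma mul_sub_one_div {b c : ℕ} (hb : 0 < b) (hc : 0 < c) : (b * c - 1) / b = c - 1 := by
  obtain ⟨c', rfl⟩ : ∃ c', c = c' + 1 := ⟨c - 1, by omega⟩
  have h : b * (c' + 1) - 1 = (b - 1) + b * c' := by
    have : b * (c' + 1) = b * c' + b := by ring
    omega
  rw [h, Nat.add_mul_div_left _ _ hb, Nat.div_eq_of_lt (by omega)]
  omega

lemma D_lt {G : ℕ} (hG : 0 < G) (i s : ℕ) : D G i s < G := Nat.mod_lt _ hG

lemma D_succ_of_P {G i s : ℕ} (h : P G i s) : D G i (s + 1) = (D G i s + 1) % G := by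
  obtain ⟨h1, h2⟩ := h
  have h3 : s + 1 - i = (s - i) + 1 := by omega
  rw [D, D, h3, Nat.succ_div, if_pos (by rw [← h3]; exact h2), Nat.mod_add_mod]

lemma D_succ_of_not {G i s : ℕ} (h : ¬ P G i s) : D G i (s + 1) = D G i s := by
  by_cases h1 : i < s + 1
  · have h2 : ¬ G ^ i ∣ (s + 1 - i) := fun h2 => h ⟨h1, h2⟩
    have h3 : s + 1 - i = (s - i) + 1 := by omega
    rw [D, D, h3, Nat.succ_div, if_neg (by rw [← h3]; exact h2), Nat.add_zero]
  · have h3 : s + 1 - i = 0 := by omega
    have h4 : s - i = 0 := by omega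
    rw [D, D, h3, h4]

lemma P_succ {G : ℕ} (hG : 0 < G) (i s : ℕ) :
    P G (i + 1) (s + 1) ↔ P G i s ∧ D G i s = G - 1 := by
  have hp : 0 < G ^ i := pow_pos hG i
  have e : s + 1 + 1 - (i + 1) = s + 1 - i := by omega
  unfold P D
  rw [e]
  constructor
  · rintro ⟨h1, c, hc⟩
    have hc0 : 0 < c := by
      rcases Nat.eq_zero_or_pos c with rfl | h
      · rw [Nat.mul_zero] at hc; omega
      · exact h
    have h2 : s + 1 - i = G ^ i * (G * c) := by rw [hc, pow_succ]; ring
    refine ⟨⟨by omega, ⟨G * c, h2⟩⟩, ?_⟩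
    have h3 : s - i = G ^ i * (G * c) - 1 := by omega
    rw [h3, mul_sub_one_div hp (Nat.mul_pos hG hc0)]
    obtain ⟨c', rfl⟩ : ∃ c', c = c' + 1 := ⟨c - 1, by omega⟩
    have h4 : G * (c' + 1) - 1 = (G - 1) + G * c' := by
      have : G * (c' + 1) = G * c' + G := by ring
      omega
    rw [h4, Nat.add_mul_mod_self_left, Nat.mod_eq_of_lt (by omega)]
  · rintro ⟨⟨h1, c, hc⟩, h2⟩
    have hc0 : 0 < c := by
      rcases Nat.eq_zero_or_pos c with rfl | h
      · rw [Nat.mul_zero] at hc; omega
      · exact h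
    have h3 : s - i = G ^ i * c - 1 := by omega
    rw [h3, mul_sub_one_div hp hc0] at h2
    refine ⟨by omega, ?_⟩
    rw [hc, pow_succ]
    refine Nat.mul_dvd_mul_left _ ?_
    refine ⟨(c - 1) / G + 1, ?_⟩
    have h4 := Nat.div_add_mod (c - 1) G
    rw [h2] at h4
    have : G * ((c - 1) / G + 1) = G * ((c - 1) / G) + G := by ring
    omega

variable {N G g e : ℕ}

/-- The cyclic successor. -/
def suc (hG : 0 < G) (d : Fin G) : Fin G := ⟨(d.val + 1) % G, Nat.mod_lt _ hG⟩

/-- The last state. -/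
def lastd (hG : 0 < G) : Fin G := ⟨G - 1, by omega⟩

/-- The set of active nodes at time `s`. -/
def T (hG : 0 < G) (E : Fin G → Finset (Fin g)) (s : ℕ) : Node N g e → Prop
  | .start => False
  | .ring i r => r ∈ E ⟨D G i.val s, D_lt hG _ _⟩
  | .p i => P G i.val s
  | .q i => ¬ P G i.val s
  | .ex _ => False

/-- Activation by the ordinary rules. -/
def Act' (hG : 0 < G) (E : Fin G → Finset (Fin g)) :
    Node N g e → Set (Node N g e) → Prop
  | .start, _ => False
  | .ring i r, X => (.q i ∈ X ∧ .ring i r ∈ X) ∨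
      (.p i.castSucc ∈ X ∧ ∃ d : Fin G, (∀ r' ∈ E d, Node.ring i r' ∈ X) ∧ r ∈ E (suc hG d))
  | .p j, X => (j.val = 0 ∧ .p j ∈ X) ∨ ∃ i : Fin N, j.val = i.val + 1 ∧
      .p i.castSucc ∈ X ∧ ∀ r' ∈ E (lastd hG), Node.ring i r' ∈ X
  | .q j, X => ∃ i : Fin N, j.val = i.val + 1 ∧ (.q i ∈ X ∨
      (.p i.castSucc ∈ X ∧ ∃ d : Fin G, d ≠ lastd hG ∧ ∀ r' ∈ E d, Node.ring i r' ∈ X))
  | .ex _, _ => False

/-- Activation. -/
def Act (hG : 0 < G) (E : Fin G → Finset (Fin g)) (u : Node N g e) (X : Set (Node N g e)) :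
    Prop :=
  Node.p (Fin.last N) ∈ X ∨ (Node.start ∈ X ∧ T hG E 0 u) ∨ Act' hG E u X

lemma act_mono {hG : 0 < G} {E : Fin G → Finset (Fin g)} {u : Node N g e}
    {X Y : Set (Node N g e)} (h : X ⊆ Y) (ha : Act hG E u X) : Act hG E u Y := by
  rcases ha with ha | ha | ha
  · exact Or.inl (h ha)
  · exact Or.inr (Or.inl ⟨h ha.1, ha.2⟩)
  · refine Or.inr (Or.inr ?_)
    cases u with
    | start => exact ha
    | ring i r =>
      rcases ha with ha | ⟨h1, d, h2, h3⟩
      · exact Or.inl ⟨h ha.1, h ha.2⟩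
      · exact Or.inr ⟨h h1, d, fun r' hr' => h (h2 r' hr'), h3⟩
    | p j =>
      rcases ha with ha | ⟨i, h1, h2, h3⟩
      · exact Or.inl ⟨ha.1, h ha.2⟩
      · exact Or.inr ⟨i, h1, h h2, fun r' hr' => h (h3 r' hr')⟩
    | q j =>
      obtain ⟨i, h1, h2 | ⟨h2, d, h3, h4⟩⟩ := ha
      · exact ⟨i, h1, Or.inl (h h2)⟩
      · exact ⟨i, h1, Or.inr ⟨h h2, d, h3, fun r' hr' => h (h4 r' hr')⟩⟩
    | ex k => exact ha

/-- Activation only needs few nodes. -/
lemma act_finite {hG : 0 < G} {E : Fin G → Finset (Fin g)} {k : ℕ} (hk : 1 ≤ k)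
    (hE : ∀ d, (E d).card = k) {u : Node N g e} {X : Set (Node N g e)} (ha : Act hG E u X) :
    ∃ Y : Finset (Node N g e), Y.Nonempty ∧ Y.card ≤ k + 1 ∧ (Y : Set (Node N g e)) ⊆ X ∧
      Act hG E u (Y : Set (Node N g e)) := by
  classical
  -- the set of the nodes of a block state together with a pulse
  have block : ∀ (i : Fin N) (d : Fin G), .p i.castSucc ∈ X → (∀ r' ∈ E d, Node.ring i r' ∈ X) →
      ∃ Y : Finset (Node N g e), Y.Nonempty ∧ Y.card ≤ k + 1 ∧ (Y : Set (Node N g e)) ⊆ X ∧
        Node.p i.castSucc ∈ (Y : Set (Node N g e)) ∧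
        ∀ r' ∈ E d, Node.ring i r' ∈ (Y : Set (Node N g e)) := by
    intro i d h1 h2
    refine ⟨insert (.p i.castSucc) ((E d).image (Node.ring i)), Finset.insert_nonempty _ _, ?_,
      ?_, by simp, ?_⟩
    · refine (Finset.card_insert_le _ _).trans ?_
      have := Finset.card_image_le (s := E d) (f := (Node.ring i : Fin g → Node N g e))
      rw [hE d] at this
      omega
    · intro v hv
      simp only [Finset.coe_insert, Set.mem_insert_iff, Finset.coe_image, Set.mem_image,
        Finset.mem_coe] at hv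
      rcases hv with rfl | ⟨r', hr', rfl⟩
      · exact h1
      · exact h2 r' hr'
    · intro r' hr'
      simp only [Finset.coe_insert, Set.mem_insert_iff, Finset.coe_image, Set.mem_image,
        Finset.mem_coe]
      exact Or.inr ⟨r', hr', rfl⟩
  have single : ∀ v : Node N g e, v ∈ X → Act hG E u ((({v} : Finset (Node N g e))) :
      Set (Node N g e)) → ∃ Y : Finset (Node N g e), Y.Nonempty ∧ Y.card ≤ k + 1 ∧
      (Y : Set (Node N g e)) ⊆ X ∧ Act hG E u (Y : Set (Node N g e)) := by
    intro v hv h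
    exact ⟨{v}, Finset.singleton_nonempty v, by simp, by simpa using hv, h⟩
  rcases ha with ha | ha | ha
  · exact single _ ha (Or.inl (by simp))
  · exact single _ ha.1 (Or.inr (Or.inl ⟨by simp, ha.2⟩))
  · cases u with
    | start => exact ha.elim
    | ring i r =>
      rcases ha with ha | ⟨h1, d, h2, h3⟩
      · refine ⟨{.q i, .ring i r}, by simp, ?_, ?_, Or.inr (Or.inr (Or.inl ⟨by simp, by simp⟩))⟩
        · refine (Finset.card_le_two).trans (by omega)
        · intro v hv
          simp only [Finset.coe_insert, Finset.coe_singleton, Set.mem_insert_iff,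
            Set.mem_singleton_iff] at hv
          rcases hv with rfl | rfl
          · exact ha.1
          · exact ha.2
      · obtain ⟨Y, a1, a2, a3, a4, a5⟩ := block i d h1 h2
        exact ⟨Y, a1, a2, a3, Or.inr (Or.inr (Or.inr ⟨a4, d, a5, h3⟩))⟩
    | p j =>
      rcases ha with ha | ⟨i, h1, h2, h3⟩
      · exact single _ ha.2 (Or.inr (Or.inr (Or.inl ⟨ha.1, by simp⟩)))
      · obtain ⟨Y, a1, a2, a3, a4, a5⟩ := block i _ h2 h3
        exact ⟨Y, a1, a2, a3, Or.inr (Or.inr (Or.inr ⟨i, h1, a4, a5⟩))⟩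
    | q j =>
      obtain ⟨i, h1, h2 | ⟨h2, d, h3, h4⟩⟩ := ha
      · exact single _ h2 (Or.inr (Or.inr ⟨i, h1, Or.inl (by simp)⟩))
      · obtain ⟨Y, a1, a2, a3, a4, a5⟩ := block i d h2 h4
        exact ⟨Y, a1, a2, a3, Or.inr (Or.inr ⟨i, h1, Or.inr ⟨a4, d, h3, a5⟩⟩)⟩
    | ex k => exact ha.elim

section dynamics

variable {hG : 0 < G} {E : Fin G → Finset (Fin g)} {k : ℕ}

lemma start_not (s : ℕ) : ¬ T hG E s (Node.start : Node N g e) := id

/-- One step of the dynamics, before the last pulse. -/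
lemma step (hE : ∀ d, (E d).card = k) (hinj : Function.Injective E) {s : ℕ}
    (hs : ¬ P G N s) (u : Node N g e) :
    Act hG E u {v | T hG E s v} ↔ T hG E (s + 1) u := by
  have sub : ∀ (d : Fin G) (i : Fin N),
      (∀ r' ∈ E d, Node.ring i r' ∈ {v : Node N g e | T hG E s v}) ↔
        d = ⟨D G i.val s, D_lt hG _ _⟩ := by
    intro d i
    constructor
    · intro h
      apply hinj
      apply Finset.eq_of_subset_of_card_le (fun r' hr' => h r' hr')
      rw [hE, hE]
    · rintro rfl r' hr'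
      exact hr'
  have h0 : ¬ Node.p (Fin.last N) ∈ {v : Node N g e | T hG E s v} := by
    intro h
    exact hs (by simpa [T] using h)
  have h00 : ¬ Node.start ∈ {v : Node N g e | T hG E s v} := fun h => h
  rw [Act, or_iff_right h0, or_iff_right (fun h => h00 h.1)]
  have hlast : ∀ i : Fin N, (lastd hG = ⟨D G i.val s, D_lt hG _ _⟩) ↔ D G i.val s = G - 1 := by
    intro i
    rw [lastd, Fin.mk.injEq, eq_comm]
  cases u with
  | start => exact Iff.rfl
  | ex k => exact Iff.rfl
  | ring i r =>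
    show (¬ P G i.val s ∧ r ∈ E ⟨D G i.val s, D_lt hG _ _⟩) ∨ (P G i.castSucc.val s ∧
      ∃ d : Fin G, (∀ r' ∈ E d, Node.ring i r' ∈ {v : Node N g e | T hG E s v}) ∧
        r ∈ E (suc hG d)) ↔ r ∈ E ⟨D G i.val (s + 1), D_lt hG _ _⟩
    rw [Fin.val_castSucc]
    simp only [sub]
    by_cases hP : P G i.val s
    · have e1 : (⟨D G i.val (s + 1), D_lt hG _ _⟩ : Fin G) =
          suc hG ⟨D G i.val s, D_lt hG _ _⟩ := by
        rw [suc, Fin.mk.injEq]
        exact D_succ_of_P hP
      rw [e1]
      constructor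
      · rintro (h | ⟨-, d, rfl, h⟩)
        · exact absurd hP h.1
        · exact h
      · intro h
        exact Or.inr ⟨hP, _, rfl, h⟩
    · have e1 : (⟨D G i.val (s + 1), D_lt hG _ _⟩ : Fin G) = ⟨D G i.val s, D_lt hG _ _⟩ := by
        rw [Fin.mk.injEq]
        exact D_succ_of_not hP
      rw [e1]
      constructor
      · rintro (h | ⟨h, -⟩)
        · exact h.2
        · exact absurd h hP
      · intro h
        exact Or.inl ⟨hP, h⟩
  | p j =>
    show (j.val = 0 ∧ P G j.val s) ∨ (∃ i : Fin N, j.val = i.val + 1 ∧ P G i.castSucc.val s ∧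
      ∀ r' ∈ E (lastd hG), Node.ring i r' ∈ {v : Node N g e | T hG E s v}) ↔ P G j.val (s + 1)
    simp only [sub, hlast, Fin.val_castSucc]
    rcases Nat.eq_zero_or_pos j.val with hj | hj
    · rw [hj]
      constructor
      · intro _
        exact ⟨by omega, by simp⟩
      · intro _
        exact Or.inl ⟨rfl, by omega, by simp⟩
    · have hjN := j.isLt
      obtain ⟨i, hi⟩ : ∃ i : Fin N, j.val = i.val + 1 := ⟨⟨j.val - 1, by omega⟩, by simp; omega⟩
      rw [hi, P_succ hG]
      constructor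
      · rintro (⟨h, -⟩ | ⟨i', h1, h2, h3⟩)
        · omega
        · have : i' = i := Fin.ext (by omega)
          rw [this] at h2 h3
          exact ⟨h2, h3⟩
      · intro h
        exact Or.inr ⟨i, rfl, h.1, h.2⟩
  | q j =>
    show (∃ i : Fin N, j.val = i.val + 1 ∧ (¬ P G i.val s ∨ (P G i.castSucc.val s ∧
      ∃ d : Fin G, d ≠ lastd hG ∧
        ∀ r' ∈ E d, Node.ring i r' ∈ {v : Node N g e | T hG E s v}))) ↔ ¬ P G j.val (s + 1)
    simp only [sub, Fin.val_castSucc]
    rcases Nat.eq_zero_or_pos j.val with hj | hj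
    · rw [hj]
      constructor
      · rintro ⟨i, hi, -⟩
        omega
      · intro h
        exact absurd ⟨by omega, by simp⟩ h
    · have hjN := j.isLt
      obtain ⟨i, hi⟩ : ∃ i : Fin N, j.val = i.val + 1 := ⟨⟨j.val - 1, by omega⟩, by simp; omega⟩
      rw [hi, P_succ hG]
      have hl := hlast i
      constructor
      · rintro ⟨i', h1, h2⟩ ⟨h3, h4⟩
        have : i' = i := Fin.ext (by omega)
        rw [this] at h2
        rcases h2 with h2 | ⟨-, d, h5, h6⟩
        · exact h2 h3
        · exact h5 (h6.trans (hl.2 h4).symm)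
      · intro h
        refine ⟨i, rfl, ?_⟩
        by_cases hP : P G i.val s
        · exact Or.inr ⟨hP, _, fun h5 => h ⟨hP, hl.1 h5.symm⟩, rfl⟩
        · exact Or.inl hP

/-- The last pulse activates everything. -/
lemma step_last {s : ℕ} (hs : P G N s) (u : Node N g e) : Act hG E u {v | T hG E s v} :=
  Or.inl (by simpa [T] using hs)

/-- The first step. -/
lemma step_start (u : Node N g e) : Act hG E u {Node.start} ↔ T hG E 0 u := by
  constructor
  · rintro (h | h | h)
    · simp at h
    · exact h.2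
    · cases u with
      | start => exact h
      | ring i r => rcases h with h | h <;> simp at h
      | p j => rcases h with h | ⟨i, _, h⟩ <;> simp at h
      | q j => obtain ⟨i, _, h | h⟩ := h <;> simp at h
      | ex k => exact h
  · intro h
    exact Or.inr (Or.inl ⟨by simp, h⟩)

/-- A node without any effect. -/
lemma dead (hN : 0 < N) (u : Node N g e) : ¬ Act hG E u {Node.q ⟨N - 1, by omega⟩} := by
  rintro (h | h | h)
  · simp at h
  · simp at h
  · cases u with
    | start => exact h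
    | ring i r => rcases h with h | h <;> simp at h
    | p j => rcases h with h | ⟨i, _, h⟩ <;> simp at h
    | q j =>
      obtain ⟨i, hi, h | h⟩ := h
      · simp only [Set.mem_singleton_iff, Node.q.injEq] at h
        have := j.isLt
        rw [h] at hi
        simp at hi
        omega
      · simp at h
    | ex k => exact h

lemma dead_empty (u : Node N g e) : ¬ Act hG E u (∅ : Set (Node N g e)) := by
  rintro (h | h | h)
  · simp at h
  · simp at h
  · cases u with
    | start => exact h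
    | ring i r => rcases h with h | h <;> simp at h
    | p j => rcases h with h | ⟨i, _, h⟩ <;> simp at h
    | q j => obtain ⟨i, _, h | h⟩ := h <;> simp at h
    | ex k => exact h

end dynamics

end Pool.Agent.H84.TP
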